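import Mathlib
import Pool.Agent.L5helper73.LA.C
import Pool.Agent.L5helper73.LA.D
import Pool.Agent.W245.PB.RealQ

/-!
# `p`-adic logarithms and polynomials of any degree computed with few additions

Let `ψ` be any function. There are numbers `r_0, r_1, …`, which depend on `ψ` alone, with the following property. Let `p` be
any prime, `c_0, c_1, …` any elements of the algebraic closure of `ℚ_p`, and let `l_0, l_1, …` be values of the Iwasawa
logarithm at algebraic numbers which are linearly independent over `ℚ`; they should be algebraically independent. If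
the sequence `l` is divided in consecutive blocks of `r_0, r_1, r_2, …` terms then there are subsets `S_j` of the blocks
such that the sums `y_j = ∑ i ∈ S_j, l_i`, which are `p`-adic logarithms of algebraic numbers, have the property: for every
`k` no nonzero polynomial in `y_k, y_(k+1), …`, of ANY degree, is zero if it can be computed with at most `ψ(k)` additions
and arbitrarily many multiplications, where `c_0, …, c_(ψ(k) - 1)`, `y_0, …, y_(k-1)` and algebraic numbers are allowed as
constants. The same holds for polynomials in `y_k, y_(k+1), …` with coefficients which are combinations of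
`c_0, …, c_(ψ(k) - 1)` over the algebraic numbers, if for every `j` at most `ψ(j)` different monomials in the variables with
indices up to `j` occur; their degrees and the number of their terms are not bounded. The starting theorem
`InfiniteSequences` of this problem is the special case with bounds `D_j` for the degree in the `j`-th variable.

The numbers `y_j` can be chosen one after another, and for each of them only an exceptional set `B_j(y_0, …, y_(j-1))` has
to be avoided, which contains no cube `{x + ∑ i ∈ S, w_i}` with `r_j` directions `w_i` which are linearly independent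
over the field of algebraic numbers, and which contains the logarithms of at most `r_j X (log log X) ^ r_j / log X` integers
up to `X`, uniformly in `p`.

The proof: the theorem of Brumer, the determinant method for computations with few additions on cubes
(`Pool.Agent.R351.cube_good`), and induction on the number of the variables. The complex analogue is
`MP_60829e_nt.InfiniteSequences`.
-/

set_option autoImplicit false

namespace Pool.Agent.Results.MP_c50dba_nt.AdditiveComplexity

/-- `L` is the Iwasawa `p`-adic logarithm on the algebraic closure of `ℚ_p`. -/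
def IsIwasawaLog (p : ℕ) [Fact p.Prime] (L : PadicAlgCl p → PadicAlgCl p) : Prop :=
  (∀ x y : PadicAlgCl p, x ≠ 0 → y ≠ 0 → L (x * y) = L x + L y) ∧
  L ((p : ℕ) : PadicAlgCl p) = 0 ∧
  ∀ z : PadicAlgCl p, ‖z‖ < 1 →
    HasSum (fun n : ℕ => (-1 : PadicAlgCl p) ^ n * z ^ (n + 1) / ((n : PadicAlgCl p) + 1))
      (L (1 + z))

variable {p : ℕ} [Fact p.Prime]

/-- The polynomials `G 0, …, G (L - 1)` in the variables `X s`, `s ∈ σ`, are computed with one addition each: `G l` is the
sum of two products of powers of the variables, of the numbers `t o`, of the earlier polynomials `G 0, …, G (l - 1)`, and of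
an algebraic number. -/
def Computed {ι σ : Type} (t : ι → PadicAlgCl p) (L : ℕ) (G : ℕ → MvPolynomial σ (PadicAlgCl p)) : Prop :=
  ∃ (c : ℕ → Bool → algebraicClosure ℚ (PadicAlgCl p)) (u : ℕ → Bool → ι →₀ ℕ) (a : ℕ → Bool → σ →₀ ℕ)
    (h : ℕ → Bool → ℕ → ℕ), ∀ l < L, G l = ∑ b : Bool,
      MvPolynomial.monomial (a l b) ((c l b : PadicAlgCl p) * (u l b).prod fun o e => t o ^ e) *
        ∏ l' ∈ Finset.range l, G l' ^ h l b l'

/-- The numbers `y j`, `j ∈ J`, are not a zero of any nonzero polynomial which is computed from the variables, the numbers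
`t o` and algebraic numbers with at most `L` additions and arbitrarily many multiplications. -/
def Free {ι : Type} (t : ι → PadicAlgCl p) (L : ℕ) (J : Set ℕ) (y : ℕ → PadicAlgCl p) : Prop :=
  ∀ G : ℕ → MvPolynomial J (PadicAlgCl p), Computed t L G → ∀ l < L, G l ≠ 0 →
    MvPolynomial.eval (fun j : J => y j) (G l) ≠ 0

/-- For every `j ∈ J` at most `ψ j` different monomials in the variables `X i`, `i ≤ j`, occur in the terms of `Q`. -/
def Staircase (ψ : ℕ → ℕ) {J : Set ℕ} (Q : MvPolynomial J (PadicAlgCl p)) : Prop :=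
  ∀ j ∈ J, ((fun s : J →₀ ℕ => s.filter fun i : J => (i : ℕ) ≤ j) '' (Q.support : Set (J →₀ ℕ))).ncard ≤ ψ j

/-- The numbers `y j`, `j ∈ J`, are not a zero of any nonzero polynomial with the property `Staircase ψ`, the
coefficients of which are combinations of `c 0, …, c (N - 1)` over the algebraic numbers. -/
def SparseFree (ψ : ℕ → ℕ) (c : ℕ → PadicAlgCl p) (N : ℕ) (J : Set ℕ) (y : ℕ → PadicAlgCl p) : Prop :=
  ∀ Q : MvPolynomial J (PadicAlgCl p), Q ≠ 0 → Staircase ψ Q →
    (∀ s, Q.coeff s ∈ Submodule.span (algebraicClosure ℚ (PadicAlgCl p)) (Set.range fun i : Fin N => c i)) →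
      MvPolynomial.eval (fun j : J => y j) Q ≠ 0

/-- the numbers `c 0, …, c (g - 1)` and `y 0, …, y (k - 1)` -/
def known (c y : ℕ → PadicAlgCl p) (g k : ℕ) : Fin g ⊕ Fin k → PadicAlgCl p := Sum.elim (fun i => c i) (fun i => y i)

open Pool.Agent.R351 Pool.Agent.L5helper73.LA
open Pool.Agent.W245.PB (QbarP)

theorem infTrd_padic (p : ℕ) [Fact p.Prime] : InfTrd (QbarP p) (PadicAlgCl p) := by
  apply infTrd_of
  · have h2 : Algebra.IsAlgebraic ℚ (QbarP p) :=
      (algebraicClosure.isAlgClosure ℚ (PadicAlgCl p)).isAlgebraic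
    refine (Algebra.IsAlgebraic.cardinalMk_le_max ℚ (QbarP p)).trans (max_le ?_ le_rfl)
    exact Cardinal.mk_le_aleph0
  · intro hc
    have h1 : Countable (PadicAlgCl p) := Set.countable_univ_iff.1 hc
    have h2 : Countable ℚ_[p] := (algebraMap ℚ_[p] (PadicAlgCl p)).injective.countable
    have h3 := continuum_le_cardinal_of_nontriviallyNormedField ℚ_[p]
    have h4 : Cardinal.mk ℚ_[p] ≤ Cardinal.aleph0 := Cardinal.mk_le_aleph0
    exact absurd (h3.trans h4) (not_le.2 Cardinal.aleph0_lt_continuum)

/-- Let `ψ` be any function. There are numbers `r j` such that for all primes `p`, all Iwasawa logarithms `L` and all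
sequences `c` of elements of the algebraic closure of `ℚ_p`:

(1) there are sets `B j y`, which depend only on `y 0, …, y (j - 1)`, such that (a) `B j y` contains no cube with `r j`
directions which are linearly independent over the algebraic numbers; (b) for `X ≥ 16` at most
`r_j (log log X) ^ r_j / log X * X` of the integers `1 ≤ n ≤ X` have `L n ∈ B j y`; (c) for all sequences `y` and all
sets `J` of natural numbers, finite or infinite, with `y j ∉ B j y` for `j ∈ J`, and all `k ≤ min J`: the numbers `y j`,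
`j ∈ J`, are not a zero of any nonzero polynomial which is computed from the variables, `c 0, …, c (ψ k - 1)`,
`y 0, …, y (k - 1)` and algebraic numbers with at most `ψ k` additions, and not a zero of any nonzero polynomial with
the property `Staircase ψ` whose coefficients are combinations of `c 0, …, c (ψ k - 1)` over the algebraic numbers;

(2) for every sequence `l` of logarithms of algebraic numbers which are linearly independent over `ℚ` there are subsets
`S j` of the consecutive blocks of `r 0, r 1, r 2, …` indices such that the sums `y j = ∑ i ∈ S j, l i` have both properties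
for all `k` and `J = {k, k + 1, …}`. -/
theorem result (ψ : ℕ → ℕ) : ∃ r : ℕ → ℕ, ∀ (p : ℕ) [Fact p.Prime] (L : PadicAlgCl p → PadicAlgCl p),
    IsIwasawaLog p L → ∀ c : ℕ → PadicAlgCl p,
    (∃ B : ℕ → (ℕ → PadicAlgCl p) → Set (PadicAlgCl p),
      (∀ j y y', (∀ i < j, y i = y' i) → B j y = B j y') ∧
      (∀ j y (x : PadicAlgCl p) (w : Fin (r j) → PadicAlgCl p),
        LinearIndependent (algebraicClosure ℚ (PadicAlgCl p)) w →
        ∃ S : Finset (Fin (r j)), x + ∑ i ∈ S, w i ∉ B j y) ∧
      (∀ j y (X : ℕ), 16 ≤ X → ({n : ℕ | 1 ≤ n ∧ n ≤ X ∧ L (n : PadicAlgCl p) ∈ B j y}.ncard : ℝ) ≤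
        r j * Real.log (Real.log X) ^ r j / Real.log X * X) ∧
      ∀ (y : ℕ → PadicAlgCl p) (J : Set ℕ), (∀ j ∈ J, y j ∉ B j y) → ∀ k, (∀ j ∈ J, k ≤ j) →
        Free (known c y (ψ k) k) (ψ k) J y ∧ SparseFree ψ c (ψ k) J y) ∧
    ∀ l : ℕ → PadicAlgCl p, (∀ i, ∃ α : PadicAlgCl p, α ≠ 0 ∧ IsAlgebraic ℚ α ∧ l i = L α) →
      LinearIndependent ℚ l →
      ∃ S : ℕ → Finset ℕ, (∀ j, ∀ i ∈ S j, ∑ i' ∈ Finset.range j, r i' ≤ i ∧ i < ∑ i' ∈ Finset.range (j + 1), r i') ∧
        ∀ k, Free (known c (fun j => ∑ i ∈ S j, l i) (ψ k) k) (ψ k) {j | k ≤ j} (fun j => ∑ i ∈ S j, l i) ∧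
          SparseFree ψ c (ψ k) {j | k ≤ j} fun j => ∑ i ∈ S j, l i := by
  classical
  obtain ⟨R, hR⟩ := no_cubes (Psi ψ)
  choose C hC using fun j : ℕ => rate_gen (Lam (Psi ψ) j + j + 1) (1 + Lam (Psi ψ) j)
  have both : ∀ (p : ℕ) [Fact p.Prime] (c y : ℕ → PadicAlgCl p) (J : Set ℕ),
      (∀ j ∈ J, y j ∉ Bad (QbarP p) c 0 (Psi ψ) j y) → ∀ k, (∀ j ∈ J, k ≤ j) →
      Free (known c y (ψ k) k) (ψ k) J y ∧ SparseFree ψ c (ψ k) J y := by
    intro p _ c y J hJ k hk
    have hinf : Infinite (QbarP p) := IsAlgClosed.instInfinite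
    refine ⟨fun G hG l hl h0 => ?_, fun Q h0 hQ hW => ?_⟩
    · exact free_of_notMem' c 0 (Psi ψ) y J hJ k hk (ψ k) (ψ k) (le_Psi ψ k) (le_Psi ψ k) G hG l hl h0
    · exact stair c 0 ψ (Psi ψ) y hJ (fun j hj => le_Psi' ψ (hk j hj)) (fun j hj => mul_le_Psi ψ (hk j hj)) hQ hW h0
  refine ⟨fun j => R j + C j, fun p _ L hL c => ⟨⟨fun j y => Bad (QbarP p) c 0 (Psi ψ) j y, ?_, ?_, ?_, ?_⟩, ?_⟩⟩
  · intro j y y' h
    exact bad_congr c 0 (Psi ψ) j h
  · intro j y x w hw
    exact hR (QbarP p) (PadicAlgCl p) (infTrd_padic p) c 0 j y x _ (Nat.le_add_right _ _) w hw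
  · intro j y X hX
    have hL' : Pool.Agent.W245.PB.IsIwasawaLog p L := ⟨hL.1, hL.2.1, hL.2.2⟩
    set A : Finset ℕ := (Finset.Ioc 0 X).filter fun n => L (n : PadicAlgCl p) ∈ Bad (QbarP p) c 0 (Psi ψ) j y with hA
    have h1 : {n : ℕ | 1 ≤ n ∧ n ≤ X ∧ L (n : PadicAlgCl p) ∈ Bad (QbarP p) c 0 (Psi ψ) j y} = ↑A := by
      ext n
      simp only [Set.mem_ofPred_eq, hA, Finset.coe_filter, Finset.mem_Ioc]
      constructor
      · rintro ⟨h1, h2, h3⟩
        exact ⟨⟨h1, h2⟩, h3⟩
      · rintro ⟨⟨h1, h2⟩, h3⟩
        exact ⟨h1, h2, h3⟩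
    rw [h1, Set.ncard_coe_finset]
    have hinf : Infinite (QbarP p) := IsAlgClosed.instInfinite
    refine (hC j (QbarP p) (PadicAlgCl p) (infTrd_padic p) (fun n : ℕ => L (n : PadicAlgCl p)) hL'.logLike X hX
      (Fin.cons 0 (Tc c (Psi ψ) j y)) A (Finset.filter_subset _ _) fun n hn hgood => ?_).trans ?_
    · exact notMem_bad c 0 (Psi ψ) j y hgood (Finset.mem_filter.1 hn).2
    · have h4 := Pool.Agent.TH681.QC.er_mono (Nat.le_add_left (C j) (R j)) hX
      exact mul_le_mul_of_nonneg_right h4 (Nat.cast_nonneg _)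
  · intro y J hJ k hk
    exact both p c y J hJ k hk
  · intro l halg hl
    have hL' : Pool.Agent.W245.PB.IsIwasawaLog p L := ⟨hL.1, hL.2.1, hL.2.2⟩
    obtain ⟨S, hS, hS'⟩ := exists_sums (Psi ψ) (fun j => R j + C j) c 0
      (fun j y x w hw => hR (QbarP p) (PadicAlgCl p) (infTrd_padic p) c 0 j y x _ (Nat.le_add_right _ _) w hw) l
      (Pool.Agent.W245.PB.brumer_seq hL' l halg hl)
    exact ⟨S, hS, fun k => both p c (fun j => ∑ i ∈ S j, l i) {j | k ≤ j} (fun j _ => hS' j) k fun j hj => hj⟩

end Pool.Agent.Results.MP_c50dba_nt.AdditiveComplexity
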