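import Pool.Agent.L5helper82.FF.Hil
import Pool.Agent.Y787.PInst

/-!
# `p`-adic logarithms with many relations lie on varieties of large degree

Let `L` be the Iwasawa logarithm, let `l_1, ..., l_N` be `p`-adic logarithms of algebraic numbers
which are linearly independent over `ℚ` (or linear forms in `1` and such logarithms which are,
with `1`, linearly independent over the field `ℚ̄` of the algebraic numbers), and let `X` be the
smallest algebraic subset of affine `N`-space defined over `ℚ̄` which contains the point `l`.  The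
conjecture says that `X` is the whole space.  Let `t` be the dimension of `X`, i.e. the transcendence
degree of `ℚ̄(l_1, ..., l_N)`, and let `D` be the degree of (the projective closure of) `X`: the number
with `H(M) ∼ D M ^ t / t!`, where the Hilbert function `H(M)` is the dimension of the space of all
values at `l` of the polynomials over `ℚ̄` of degree at most `M`.  We prove

`D binom(m + t - 1, t) + binom(m + t - 1, m) ≥ (N + 1) + (m - 1) ⌊(N + 1) ^ 2 / 4⌋`

for all `m ≥ 1`, in particular (`m = 2`)

`2 (t + 1) (2 D + t) + 5 ≥ (N + 3) ^ 2`.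

So if the transcendence degree `t` of `N` logarithms were small, they would lie on no variety of small
degree: `D` is at least about `N ^ 2 / (4 (t + 1))`.  (For every nondegenerate variety one has
`D ≥ N - t + 1` only, and this is attained.)  The case `t = 1` is `FieldDegrees`, a starting file of
this problem; the complex analogue is `MP_60829e_nt.DegreeOfVariety`, a result of this team.

The proof: the upper bound `H(m) ≤ D binom(m + t - 1, t) + binom(m + t - 1, m)` for every generic point
over an algebraically closed field (`Pool.Agent.L5helper3.Hilb`), and the lower bound for `H(m)` from the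
hyperplane case of the `p`-adic linear subgroup theorem (`Pool.Agent.N770.grows_padic`).
-/

set_option autoImplicit false

namespace Pool.Agent.Results.MP_c50dba_nt.DegreeOfVariety

open Filter Topology

/-- `L` is the Iwasawa logarithm on the algebraic closure of `ℚ_p`. -/
structure IsIwasawaLog (p : ℕ) [Fact p.Prime] (L : PadicAlgCl p → PadicAlgCl p) : Prop where
  mul : ∀ x y : PadicAlgCl p, x ≠ 0 → y ≠ 0 → L (x * y) = L x + L y
  prime : L ((p : ℕ) : PadicAlgCl p) = 0
  ser : ∀ z : PadicAlgCl p, ‖z‖ < 1 →
    HasSum (fun n : ℕ => (-1 : PadicAlgCl p) ^ n * z ^ (n + 1) / ((n : PadicAlgCl p) + 1))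
      (L (1 + z))

/-- The space of all linear combinations with algebraic coefficients of `1` and of the values of `L`
at algebraic numbers. -/
noncomputable def LogForms {p : ℕ} [Fact p.Prime] (L : PadicAlgCl p → PadicAlgCl p) :
    Submodule (algebraicClosure ℚ (PadicAlgCl p)) (PadicAlgCl p) :=
  Submodule.span (algebraicClosure ℚ (PadicAlgCl p))
    ({1} ∪ {z | ∃ α : PadicAlgCl p, α ≠ 0 ∧ IsAlgebraic ℚ α ∧ z = L α})

/-- The Hilbert function: the dimension over the algebraic numbers of the space of all values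
`P(l_1, ..., l_N)` of polynomials `P` over the algebraic numbers of total degree at most `M`. -/
noncomputable def hilbert {p : ℕ} [Fact p.Prime] {N : ℕ} (l : Fin N → PadicAlgCl p) (M : ℕ) : ℕ :=
  Module.finrank (algebraicClosure ℚ (PadicAlgCl p))
    ((MvPolynomial.restrictTotalDegree (Fin N) (algebraicClosure ℚ (PadicAlgCl p)) M).map
      (MvPolynomial.aeval l).toLinearMap :
        Submodule (algebraicClosure ℚ (PadicAlgCl p)) (PadicAlgCl p))

/-- **Main result.** -/
theorem result (p : ℕ) [Fact p.Prime] (L : PadicAlgCl p → PadicAlgCl p) (hL : IsIwasawaLog p L)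
    (N : ℕ) (l : Fin N → PadicAlgCl p)
    (h : ((∀ j, ∃ α : PadicAlgCl p, α ≠ 0 ∧ IsAlgebraic ℚ α ∧ l j = L α) ∧
        LinearIndependent ℚ l) ∨
      ((∀ j, l j ∈ LogForms L) ∧ LinearIndependent (algebraicClosure ℚ (PadicAlgCl p))
        (Fin.cons 1 l : Fin (N + 1) → PadicAlgCl p))) :
    ∃ t D : ℕ, 1 ≤ D ∧
      Algebra.trdeg (algebraicClosure ℚ (PadicAlgCl p))
        (IntermediateField.adjoin (algebraicClosure ℚ (PadicAlgCl p)) (Set.range l)) = t ∧
      Tendsto (fun M : ℕ => (t.factorial : ℝ) * hilbert l M / (M : ℝ) ^ t) atTop (𝓝 (D : ℝ)) ∧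
      (∀ m : ℕ, 1 ≤ m → (N + 1) + (m - 1) * ((N + 1) ^ 2 / 4) ≤
        D * (m + t - 1).choose t + (m + t - 1).choose m) ∧
      (N + 3) ^ 2 ≤ 2 * (t + 1) * (2 * D + t) + 5 := by
  have hL' : Pool.Agent.W245.PB.IsIwasawaLog p L := ⟨hL.mul, hL.prime, hL.ser⟩
  have h' : (∀ j, l j ∈ (Pool.Agent.W254.PA.LtE (Pool.Agent.W254.PA.logs L) :
        Submodule (algebraicClosure ℚ (PadicAlgCl p)) (PadicAlgCl p))) ∧
      LinearIndependent (algebraicClosure ℚ (PadicAlgCl p))
        (Fin.cons 1 l : Fin (N + 1) → PadicAlgCl p) := by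
    rcases h with ⟨h1, h2⟩ | h
    · exact ⟨fun j => Pool.Agent.Y787.log_mem (h1 j), Pool.Agent.Y787.li_consP hL' l h1 h2⟩
    · exact h
  obtain ⟨t, D, h1, h2, h3, h4⟩ := Pool.Agent.L5helper82.FF.main
    (Pool.Agent.N770.grows_padic hL') Pool.Agent.N770.one_mem_padic l h'.1 h'.2
  refine ⟨t, D, h1, h2, h3, h4, ?_⟩
  have h5 := h4 2 (by norm_num)
  have e1 : 2 + t - 1 = t + 1 := by omega
  rw [e1, Nat.choose_succ_self_right] at h5
  have h6 : 2 * (t + 1).choose 2 = (t + 1) * t := by
    have := Nat.choose_two_right (t + 1)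
    rw [this]
    have h7 : 2 ∣ (t + 1) * (t + 1 - 1) := by
      rw [Nat.add_sub_cancel, mul_comm]
      exact (Nat.even_mul_succ_self t).two_dvd
    rw [Nat.mul_div_cancel' h7, Nat.add_sub_cancel]
  have h8 : (N + 1) ^ 2 ≤ 4 * ((N + 1) ^ 2 / 4) + 1 := by
    rcases Nat.even_or_odd' (N + 1) with ⟨k, hk | hk⟩
    · rw [hk]
      have : (2 * k) ^ 2 = 4 * (k * k) := by ring
      omega
    · rw [hk]
      have : (2 * k + 1) ^ 2 = 4 * (k * k + k) + 1 := by ring
      omega
  nlinarith

end Pool.Agent.Results.MP_c50dba_nt.DegreeOfVariety
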