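import Pool.Agent.L5helper52.NS.Tup

/-!
# `p`-adic Schanuel conjecture: integers which are `p`-adically close to `S`-units

Let `k`, `δ`, `d`, `D`, `r` be arbitrary. There is a constant `C` with the following property. Let `p` be any prime, let
`q_1, …, q_r ≥ 2` be integers which are not divisible by `p`, and let `N` be a set of integers `n ≤ X` which are prime to
the `q_i` and `p`-adically close to a product `u` of powers of the `q_i`, in the sense that `n = u + g p^e` with
`1 ≤ g` and `g u ≤ p^(e / C)`. Then for all but at most `C log log X · |N|^(k - 1)` of the `k`-tuples of elements of `N`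
the `p`-adic logarithms `log_p n_1, …, log_p n_k` satisfy no nontrivial polynomial relation of degree at most `δ` whose
coefficients are combinations of `D` arbitrary given `p`-adic numbers over some number field of degree at most `d`.
There is no bound for the heights of the coefficients, and `C` does not depend on `p`, on the `q_i` and on the given `p`-adic
numbers. For instance (`r = 0`) `N` can be the set of all integers `1 + g p^e ≤ X`, `1 ≤ g ≤ p^(e / C)`, which has about
`X^(1 / (C + 1))` elements, and for `k = 1` there are only `C log log X` exceptions.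

The starting theorem `ResidueBoxes` of this problem is about the numbers `v + g p^e` with one fixed pair `(v, e)`; here `e`
and `u` are not fixed, and a union over the pairs `(u, e)` would give a power of `log X`. The proof: the logarithms of all
`n` with `e` in an interval `[e_0, (1 + 1 / K) e_0]` and all `u` are expressed by means of the values of the series
`log (1 + β z)` at ONE point `z = p^(e_0) / U`, `U` a common multiple of the `u`, and of the constants `log_p q_i`; this needs
only `O (log log X)` windows (theorem `Pool.Agent.Y916.Om.win1` of the starting library).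
-/

set_option autoImplicit false

namespace Pool.Agent.Results.MP_c50dba_nt.NearSUnits

open Module

/-- `L` is an Iwasawa `p`-adic logarithm on the field `A ⊇ ℚ_p` (for example the algebraic closure of `ℚ_p`, or `ℂ_p`). -/
def IsIwasawaLog (p : ℕ) [Fact p.Prime] (A : Type) [NormedField A] [NormedAlgebra ℚ_[p] A] (L : A → A) : Prop :=
  (∀ x y : A, x ≠ 0 → y ≠ 0 → L (x * y) = L x + L y) ∧ L ((p : ℕ) : A) = 0 ∧
  ∀ z : A, ‖z‖ < 1 → HasSum (fun n : ℕ => (-1 : A) ^ n * z ^ (n + 1) / ((n : A) + 1)) (L (1 + z))

/-- The numbers `x_i` satisfy a nontrivial polynomial relation of degree at most `δ` whose coefficients are linear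
combinations of elements of `V` over some number field of degree at most `d`. -/
def HasRelation {A : Type} [Field A] [CharZero A] {ι : Type} (δ d : ℕ) (V : Submodule ℚ A) (x : ι → A) : Prop :=
  ∃ K : IntermediateField ℚ A, FiniteDimensional ℚ K ∧ finrank ℚ K ≤ d ∧ ∃ P : MvPolynomial ι A, P ≠ 0 ∧
    P.totalDegree ≤ δ ∧ (∀ s, P.coeff s ∈ Submodule.span K (V : Set A)) ∧ MvPolynomial.aeval x P = 0

/-- `n` is prime to the numbers `q_i`, and `n = u + g p ^ e` for a product `u` of powers of the `q_i` and integers
`g, e ≥ 1` with `(g u) ^ C ≤ p ^ e`. -/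
def Near (p : ℕ) {r : ℕ} (q : Fin r → ℕ) (C n : ℕ) : Prop :=
  (∀ i, n.Coprime (q i)) ∧ ∃ (m : Fin r → ℕ) (g e : ℕ), 1 ≤ g ∧ 1 ≤ e ∧ n = ∏ i, q i ^ m i + g * p ^ e ∧
    (g * ∏ i, q i ^ m i) ^ C ≤ p ^ e

open Classical in
/-- **Main result.** -/
theorem result (k δ d D r : ℕ) : ∃ C : ℕ, 0 < C ∧
    ∀ (p : ℕ) [Fact p.Prime] (A : Type) [NormedField A] [NormedAlgebra ℚ_[p] A] [CharZero A] (L : A → A),
    IsIwasawaLog p A L → ∀ V : Submodule ℚ A, Module.Finite ℚ V → finrank ℚ V ≤ D →
    ∀ q : Fin r → ℕ, (∀ i, 2 ≤ q i ∧ ¬ p ∣ q i) →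
    ∀ (X : ℕ), 16 ≤ X → ∀ N : Finset ℕ, (∀ n ∈ N, n ≤ X ∧ Near p q C n) →
      (((Fintype.piFinset fun _ : Fin k => N).filter fun n =>
        HasRelation δ d V (fun i => L (n i : A))).card : ℝ) ≤
          C * Real.log (Real.log X) * (N.card : ℝ) ^ (k - 1) := by
  obtain ⟨C, hC, h⟩ := Pool.Agent.L5helper52.NS.near_tuples d δ r k 1 D
  refine ⟨C, hC, fun p _ A _ _ _ L hL V hV hVD q hq X hX N hN => ?_⟩
  have h16 := Pool.Agent.L5helper52.NS.loglog16 hX
  obtain ⟨w, c, hwc⟩ := Pool.Agent.Y916.Om.coords V hV D hVD
  have hw : V ≤ Submodule.span ℚ (Set.range w) := by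
    intro z hz
    rw [hwc z hz]
    refine Submodule.sum_mem _ fun j _ => ?_
    have : ((c z j : ℚ) : A) * w j = (c z j) • w j := by
      rw [Algebra.smul_def]
      rfl
    rw [this]
    exact Submodule.smul_mem _ _ (Submodule.subset_span ⟨j, rfl⟩)
  have h1 := h p A L ⟨hL.1, hL.2.1, hL.2.2⟩ (Fin D) w (Fintype.card_fin D) q hq X hX N hN
  set bad := (Fintype.piFinset fun _ : Fin k => N).filter fun n => HasRelation δ d V (fun i => L (n i : A)) with hbad
  set bad' := (Fintype.piFinset fun _ : Fin k => N).filter fun n =>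
    Pool.Agent.Y916.Om.BadW d δ 1 w (fun i : Fin k => L (n i : A)) with hbad'
  have h2 : bad ⊆ bad' := by
    intro n hn
    obtain ⟨hn1, hn2⟩ := Finset.mem_filter.1 hn
    refine Finset.mem_filter.2 ⟨hn1, ?_⟩
    have h3 : Pool.Agent.Y916.Om.RelL δ d V (fun i : Fin k => L (n i : A)) := hn2
    exact h3.bad hw
  have h3 : (bad.card : ℝ) ≤ bad'.card := by exact_mod_cast Finset.card_le_card h2
  rcases N.eq_empty_or_nonempty with h0 | h0
  · -- no elements
    rcases Nat.eq_zero_or_pos k with hk | hk
    · subst hk
      have h4 : bad.card ≤ 1 := by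
        refine (Finset.card_filter_le _ _).trans (le_of_eq ?_)
        simp
      have h5 : (bad.card : ℝ) ≤ 1 := by exact_mod_cast h4
      have h6 : (1 : ℝ) ≤ C := by exact_mod_cast hC
      rw [Nat.zero_sub, pow_zero, mul_one]
      nlinarith
    · have h4 : bad = ∅ := by
        rw [Finset.eq_empty_iff_forall_notMem]
        intro n hn
        have h5 := Fintype.mem_piFinset.1 (Finset.mem_filter.1 hn).1 ⟨0, hk⟩
        rw [h0] at h5
        exact absurd h5 (Finset.notMem_empty _)
      rw [h4, Finset.card_empty, Nat.cast_zero]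
      positivity
  · have hN0 : (0 : ℝ) < N.card := by exact_mod_cast h0.card_pos
    have h4 : (bad.card : ℝ) * N.card ≤ C * Real.log (Real.log X) * (N.card : ℝ) ^ k :=
      (mul_le_mul_of_nonneg_right h3 hN0.le).trans h1
    rcases Nat.eq_zero_or_pos k with hk | hk
    · subst hk
      rw [pow_zero, mul_one] at h4
      rw [Nat.zero_sub, pow_zero, mul_one]
      have h5 : (1 : ℝ) ≤ N.card := by exact_mod_cast h0.card_pos
      have h6 : (0 : ℝ) ≤ bad.card := Nat.cast_nonneg _
      nlinarith
    · obtain ⟨k, rfl⟩ : ∃ k', k = k' + 1 := ⟨k - 1, by omega⟩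
      rw [Nat.add_sub_cancel]
      rw [pow_succ, ← mul_assoc] at h4
      exact le_of_mul_le_mul_right h4 hN0

end Pool.Agent.Results.MP_c50dba_nt.NearSUnits
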