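import Pool.Agent.L5helper82.FF.Quad
import Pool.Agent.Y787.PInst

/-!
# Homogeneous relations between `p`-adic logarithms which involve few linear forms

Let `L` be the Iwasawa logarithm and let `l_1, ..., l_N` be linear forms in `1` and `p`-adic
logarithms of algebraic numbers which are linearly independent over the field `ℚ̄` of the algebraic
numbers; by the theorem of Brumer one can take `l = (1, λ_1, ..., λ_(N-1))` with logarithms `λ_i` of
algebraic numbers which are linearly independent over `ℚ`. The conjecture says that then no nonzero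
homogeneous polynomial `f` over `ℚ̄` vanishes at `l`. We consider the homogeneous relations `f` of
degree `D ≥ 2` which involve only `m` linear forms: `f = F(u_1, ..., u_m)` with linear forms `u_i` in
`N` variables and a form `F` of degree `D` in `m` variables. We assume that the degree of the relation
is minimal for `u(l)`: no nonzero form of degree `D - 1` vanishes at `(u_1(l), ..., u_m(l))`. (For
`D = 2` this means that the `u_i` are linearly independent, and is no restriction.)

* The set of all these `f` has dimension at most `binom (D + m - 1) D - m`, for all `m` and `D` and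
  for all forms `F` simultaneously. The bound does not depend on `N` or on `p`.
* At most `κ H ^ (binom (D + m - 1) D - m)` of these `f` have integer coefficients of absolute
  value at most `H`.
* For `D = 2`: the symmetric matrices `S` over `ℚ̄` of rank at most `m` with `∑ S_ij l_i l_j = 0` form
  a set of dimension at most `m (m - 1) / 2`, and at most `κ H ^ (m (m - 1) / 2)` of them have
  integer entries of absolute value at most `H`.

The complex analogue is `MP_60829e_nt.RelationsInFewForms`, a result of this team.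

The proof (`Pool.Agent.L5helper82.FF`). Assume that the dimension is larger. Then there is an ultrapower
of `ℚ̄` with a relation `f = F(u)` such that more than `binom (D + m - 1) D - m` coordinates of `f` are
algebraically independent over `ℚ̄`. The corresponding partial derivatives extend to derivations of the
ultrapower of the algebraic closure of `ℚ_p` which vanish on the latter (starting modules `Y787.FE`).
They map `f = F(u)` to linearly independent forms `∑ ∂_iF(u) v_i + G(u)` which vanish at `l`. In the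
space of all pairs `(v, G)`, the pairs with `∑ ∂_iF(u(l)) v_i(l) + G(u(l)) = 0` form a space of dimension
at most `m (m - 1) + binom (D + m - 1) D` by the hyperplane case of the `p`-adic linear subgroup theorem
(starting module `W254.PA`; the numbers `∂_iF(u(l))` are linearly independent over `ℚ̄`), and the pairs
`v = A u`, `G = - ∑ ∂_iF (A X)_i`, `A` an `m × m` matrix, give the derivative zero.
-/

set_option autoImplicit false

namespace Pool.Agent.Results.MP_c50dba_nt.RelationsInFewForms

open MvPolynomial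

/-- `L` is the Iwasawa logarithm on the algebraic closure of `ℚ_p`. -/
structure IsIwasawaLog (p : ℕ) [Fact p.Prime] (L : PadicAlgCl p → PadicAlgCl p) : Prop where
  mul : ∀ x y : PadicAlgCl p, x ≠ 0 → y ≠ 0 → L (x * y) = L x + L y
  prime : L ((p : ℕ) : PadicAlgCl p) = 0
  ser : ∀ z : PadicAlgCl p, ‖z‖ < 1 →
    HasSum (fun n : ℕ => (-1 : PadicAlgCl p) ^ n * z ^ (n + 1) / ((n : PadicAlgCl p) + 1))
      (L (1 + z))

/-- The algebraic numbers in the algebraic closure of `ℚ_p`. -/
noncomputable abbrev Qbar (p : ℕ) [Fact p.Prime] : IntermediateField ℚ (PadicAlgCl p) :=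
  algebraicClosure ℚ (PadicAlgCl p)

/-- The space of all linear combinations with algebraic coefficients of `1` and of the values of `L`
at algebraic numbers. -/
noncomputable def LogForms {p : ℕ} [Fact p.Prime] (L : PadicAlgCl p → PadicAlgCl p) :
    Submodule (Qbar p) (PadicAlgCl p) :=
  Submodule.span (Qbar p) ({1} ∪ {z | ∃ α : PadicAlgCl p, α ≠ 0 ∧ IsAlgebraic ℚ α ∧ z = L α})

/-- The linear form `∑ j, c j * X j`. -/
noncomputable def linearForm {p : ℕ} [Fact p.Prime] {N : ℕ} (c : Fin N → Qbar p) :
    MvPolynomial (Fin N) (Qbar p) :=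
  ∑ j, C (c j) * X j

/-- `f` vanishes at `l`, and `f = F(u_1, ..., u_m)` with a form `F` of degree `D` in `m` variables
and linear forms `u_1, ..., u_m` such that no nonzero form of degree `D - 1` in `m` variables
vanishes at `(u_1(l), ..., u_m(l))`. -/
def IsRelation {p : ℕ} [Fact p.Prime] {N : ℕ} (l : Fin N → PadicAlgCl p) (m D : ℕ)
    (f : MvPolynomial (Fin N) (Qbar p)) : Prop :=
  aeval l f = 0 ∧
  ∃ (c : Fin m → Fin N → Qbar p) (F : MvPolynomial (Fin m) (Qbar p)),
    F.IsHomogeneous D ∧ f = aeval (fun i => linearForm (c i)) F ∧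
    ∀ G : MvPolynomial (Fin m) (Qbar p), G.IsHomogeneous (D - 1) →
      aeval (fun i => aeval l (linearForm (c i))) G = 0 → G = 0

/-- The relation `∑ i, ∑ j, S i j * l i * l j = 0` holds. -/
def Vanishes {p : ℕ} [Fact p.Prime] {N : ℕ} (l : Fin N → PadicAlgCl p)
    (S : Matrix (Fin N) (Fin N) (Qbar p)) : Prop :=
  ∑ i, ∑ j, (S i j : PadicAlgCl p) * l i * l j = 0

/-- The set `S` has dimension at most `d`: any `d + 1` linear functionals satisfy one nonzero
polynomial relation on `S`. -/
def DimLE {p : ℕ} [Fact p.Prime] {V : Type} [AddCommGroup V] [Module (Qbar p) V] (d : ℕ)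
    (S : Set V) : Prop :=
  ∀ φ : Fin (d + 1) → (V →ₗ[Qbar p] Qbar p),
    ∃ P : MvPolynomial (Fin (d + 1)) (Qbar p), P ≠ 0 ∧ ∀ f ∈ S, eval (fun k => φ k f) P = 0

/-- The relations `f` of degree `D` in `m` linear forms with integer coefficients of absolute value
at most `H`. -/
def intRelations {p : ℕ} [Fact p.Prime] {N : ℕ} (l : Fin N → PadicAlgCl p) (m D H : ℕ) :
    Set (MvPolynomial (Fin N) ℤ) :=
  {f | (∀ s, |coeff s f| ≤ H) ∧
    IsRelation l m D (MvPolynomial.map (Int.castRingHom (Qbar p)) f)}

/-- The symmetric matrices `A` of rank at most `m` with integer entries of absolute value at most `H`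
such that `∑ A i j * l i * l j = 0`. -/
def intForms {p : ℕ} [Fact p.Prime] {N : ℕ} (l : Fin N → PadicAlgCl p) (m H : ℕ) :
    Set (Matrix (Fin N) (Fin N) ℤ) :=
  {A | (∀ i j, |A i j| ≤ H) ∧ A.IsSymm ∧ (A.map (algebraMap ℤ (Qbar p))).rank ≤ m ∧
    Vanishes l (A.map (algebraMap ℤ (Qbar p)))}

theorem exists_of_isRelation {p : ℕ} [Fact p.Prime] {N : ℕ} (l : Fin N → PadicAlgCl p) (m D : ℕ)
    (f : MvPolynomial (Fin N) (Qbar p)) (h : IsRelation l m (D + 1) f) :
    ∃ (b : Fin m → Fin N → Qbar p) (F : MvPolynomial (Fin m) (Qbar p)),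
      F.IsHomogeneous (D + 1) ∧ Pool.Agent.L5helper82.FF.Good0 D l b F ∧
        f = Pool.Agent.L5helper82.FF.sub b F := by
  obtain ⟨h0, c, F, h1, h2, h3⟩ := h
  have h4 : ∀ c : Fin N → Qbar p,
      linearForm c = Pool.Agent.L5helper3.FewForms.lin c := fun c => rfl
  simp only [h4, Pool.Agent.L5helper82.FF.aeval_lin, Nat.add_sub_cancel] at h2 h3
  refine ⟨c, F, h1, ⟨?_, h3⟩, h2⟩
  rw [← Pool.Agent.L5helper82.FF.aeval_sub, ← h0, h2]
  rfl

/-- **Main result.** -/
theorem result (p : ℕ) [Fact p.Prime] (L : PadicAlgCl p → PadicAlgCl p) (hL : IsIwasawaLog p L)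
    (N : ℕ) (l : Fin N → PadicAlgCl p) (hl : ∀ j, l j ∈ LogForms L)
    (hli : LinearIndependent (Qbar p) l) (m : ℕ) :
    (∀ D : ℕ, 2 ≤ D →
      DimLE (p := p) ((D + m - 1).choose D - m) {f | IsRelation l m D f} ∧
      ∃ κ : ℕ, ∀ H : ℕ, 1 ≤ H →
        (intRelations l m D H).ncard ≤ κ * H ^ ((D + m - 1).choose D - m)) ∧
    DimLE (p := p) (m * (m - 1) / 2)
      {S : Matrix (Fin N) (Fin N) (Qbar p) | S.IsSymm ∧ S.rank ≤ m ∧ Vanishes l S} ∧
    ∃ κ : ℕ, ∀ H : ℕ, 1 ≤ H → (intForms l m H).ncard ≤ κ * H ^ (m * (m - 1) / 2) := by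
  have hL' : Pool.Agent.W245.PB.IsIwasawaLog p L := ⟨hL.mul, hL.prime, hL.ser⟩
  have hhyp := Pool.Agent.Y787.hypC_padic hL'
  have hl2 : ∀ j, l j ∈ (Pool.Agent.W254.PA.LtE (Pool.Agent.W254.PA.logs L) :
    Submodule (Qbar p) (PadicAlgCl p)) := hl
  refine ⟨fun D hD => ?_, fun φ => ?_, ?_⟩
  · obtain ⟨D', rfl⟩ : ∃ D', D = D' + 1 := ⟨D - 1, by omega⟩
    have e : D' + 1 + m - 1 = m + D' := by omega
    rw [e]
    constructor
    · intro φ
      obtain ⟨P, h1, h2⟩ := Pool.Agent.L5helper82.FF.dim_le (m := m) (D := D') (by omega)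
        l hli hl2 φ
      refine ⟨P, h1, fun f hf => ?_⟩
      obtain ⟨b, F, h3, h4, rfl⟩ := exists_of_isRelation l m D' f hf
      exact h2 b F h3 h4
    · obtain ⟨κ, hκ⟩ := Pool.Agent.L5helper82.FF.count_le (m := m) (D := D') (by omega)
        l hli hl2
      refine ⟨κ, fun H hH => le_trans (Set.ncard_le_ncard ?_ (hκ H hH).1) (hκ H hH).2⟩
      rintro f ⟨h1, h2⟩
      obtain ⟨b, F, h3, h4, h5⟩ := exists_of_isRelation l m D' _ h2
      exact ⟨h1, b, F, h3, h4, h5⟩
  · obtain ⟨P, h1, h2⟩ := Pool.Agent.L5helper82.FF.quad_dim l hli hl2 φ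
    exact ⟨P, h1, fun S hS => h2 S hS.1 hS.2.1 hS.2.2⟩
  · obtain ⟨κ, hκ⟩ := Pool.Agent.L5helper82.FF.quad_count (m := m) l hli hl2
    exact ⟨κ, fun H hH => hκ H hH⟩

end Pool.Agent.Results.MP_c50dba_nt.RelationsInFewForms
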